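import Pool.Agent.Work.MP_5cb6f7_nt.Data

namespace Pool.Agent.Work.MP_5cb6f7_nt

open Finset

/-- The numbers `G_m + 1`. -/
def H (m : ℕ) : ℕ := (2 ^ 2 ^ m + 1) * 2 ^ 2 ^ 2 ^ m

/-- Check of one certificate. -/
def chk (d : ℕ × ℕ × ℕ × ℕ × ℕ × ℕ × ℕ) : Bool :=
  let p := d.1
  let n := d.2.1
  let s := d.2.2.1
  let k := d.2.2.2.1
  let t := d.2.2.2.2.1
  let per := d.2.2.2.2.2.1
  let m := d.2.2.2.2.2.2
  let x := 2 ^ m % n
  let z := 2 ^ m % k
  let e := if s ≤ z then z else z + k * s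
  let y := 2 ^ e % n
  decide (2 ≤ p) && decide (p < 4000000) && decide (1 ≤ n) && decide (1 ≤ k) && decide (1 ≤ per) &&
  decide (2 ^ n % p = 1) && decide (2 ^ (s + k) % n = 2 ^ s % n) &&
  decide (per % k = 0) && decide (2 ^ (t + per) % k = 2 ^ t % k) &&
  decide (s ≤ m) && decide (t ≤ m) && decide (5 ≤ m) && decide (m ≤ 800000) &&
  decide (720720 % per = 0) &&
  decide ((2 ^ x + 1) * 2 ^ y % p = 1)

theorem pow_modEq_of_period {n k s u v : ℕ} (h : 2 ^ (s + k) ≡ 2 ^ s [MOD n]) (hu : s ≤ u) (j : ℕ)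
    (hv : v = u + k * j) : 2 ^ v ≡ 2 ^ u [MOD n] := by
  subst hv
  induction j with
  | zero => simp; rfl
  | succ j ih =>
    obtain ⟨w, hw⟩ : ∃ w, u + k * j = s + w := ⟨u + k * j - s, by omega⟩
    have e1 : 2 ^ (u + k * (j + 1)) = 2 ^ (s + k) * 2 ^ w := by
      rw [← pow_add]; congr 1; rw [mul_add, mul_one]; omega
    have e2 : 2 ^ (u + k * j) = 2 ^ s * 2 ^ w := by rw [← pow_add, hw]
    rw [e1]
    rw [e2] at ih
    exact (h.mul_right _).trans ih

theorem pow_modEq_of_modEq {n k s u v : ℕ} (h : 2 ^ (s + k) ≡ 2 ^ s [MOD n]) (hu : s ≤ u)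
    (hv : s ≤ v) (huv : u ≡ v [MOD k]) : 2 ^ u ≡ 2 ^ v [MOD n] := by
  rcases le_total u v with hle | hle
  · obtain ⟨j, hj⟩ := (Nat.modEq_iff_dvd' hle).mp huv
    exact (pow_modEq_of_period h hu j (by omega)).symm
  · obtain ⟨j, hj⟩ := (Nat.modEq_iff_dvd' hle).mp huv.symm
    exact pow_modEq_of_period h hv j (by omega)

theorem H_modEq {p n s k t per m m' : ℕ} (hp : 2 ^ n ≡ 1 [MOD p])
    (hn : 2 ^ (s + k) ≡ 2 ^ s [MOD n]) (hper : k ∣ per) (hk : 2 ^ (t + per) ≡ 2 ^ t [MOD k])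
    (hs : s ≤ m) (ht : t ≤ m) (j : ℕ) (hm' : m' = m + per * j) : H m' ≡ H m [MOD p] := by
  have hp' : ∀ u v : ℕ, u ≡ v [MOD n] → 2 ^ u ≡ 2 ^ v [MOD p] := by
    intro u v huv
    apply pow_modEq_of_modEq (s := 0) (k := n) (by simpa using hp) (Nat.zero_le _) (Nat.zero_le _) huv
  obtain ⟨c, hc⟩ := hper
  have h1 : 2 ^ m' ≡ 2 ^ m [MOD n] :=
    pow_modEq_of_period hn hs (c * j) (by rw [hm', hc]; ring)
  have h2 : 2 ^ m' ≡ 2 ^ m [MOD k] := pow_modEq_of_period hk ht j hm'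
  have h3 : 2 ^ 2 ^ m' ≡ 2 ^ 2 ^ m [MOD n] := by
    apply pow_modEq_of_modEq hn _ _ h2
    · exact (hs.trans (by omega)).trans Nat.lt_two_pow_self.le
    · exact hs.trans Nat.lt_two_pow_self.le
  have h4 := hp' _ _ h1
  have h5 := hp' _ _ h3
  exact (h4.add_right 1).mul h5

theorem H_of_chk {d : ℕ × ℕ × ℕ × ℕ × ℕ × ℕ × ℕ} (h : chk d = true) :
    2 ≤ d.1 ∧ d.1 < 4000000 ∧ 1 ≤ d.2.2.2.2.2.1 ∧ 5 ≤ d.2.2.2.2.2.2 ∧ d.2.2.2.2.2.2 ≤ 800000 ∧
    d.2.2.2.2.2.1 ∣ 720720 ∧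
    ∀ m, d.2.2.2.2.2.2 ≤ m → m % d.2.2.2.2.2.1 = d.2.2.2.2.2.2 % d.2.2.2.2.2.1 →
      H m ≡ 1 [MOD d.1] := by
  obtain ⟨p, n, s, k, t, per, m1⟩ := d
  simp only [chk, Bool.and_eq_true, decide_eq_true_eq] at h
  obtain ⟨⟨⟨⟨⟨⟨⟨⟨⟨⟨⟨⟨⟨⟨h1, h2⟩, h3⟩, h4⟩, h5⟩, h6⟩, h7⟩, h8⟩, h9⟩, h10⟩, h11⟩, h12⟩, h13⟩, h14⟩, h15⟩ := h
  refine ⟨h1, h2, h5, h12, h13, Nat.dvd_of_mod_eq_zero h14, ?_⟩
  intro m hm hmod
  dsimp only at hm hmod ⊢
  have hp1 : 1 % p = 1 := Nat.mod_eq_of_lt (by omega)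
  have hp : 2 ^ n ≡ 1 [MOD p] := by
    show 2 ^ n % p = 1 % p
    rw [h6, hp1]
  have hn : 2 ^ (s + k) ≡ 2 ^ s [MOD n] := h7
  have hkper : k ∣ per := Nat.dvd_of_mod_eq_zero h8
  have hk : 2 ^ (t + per) ≡ 2 ^ t [MOD k] := h9
  obtain ⟨j, hj⟩ := (Nat.modEq_iff_dvd' hm).mp (hmod.symm : m1 ≡ m [MOD per])
  have hA : H m ≡ H m1 [MOD p] := H_modEq hp hn hkper hk h10 h11 j (by omega)
  refine hA.trans ?_
  -- the base value
  have hp' : ∀ u v : ℕ, u ≡ v [MOD n] → 2 ^ u ≡ 2 ^ v [MOD p] := by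
    intro u v huv
    apply pow_modEq_of_modEq (s := 0) (k := n) (by simpa using hp) (Nat.zero_le _) (Nat.zero_le _) huv
  have hx : 2 ^ 2 ^ m1 ≡ 2 ^ (2 ^ m1 % n) [MOD p] := hp' _ _ (Nat.mod_modEq _ _).symm
  have he : 2 ^ 2 ^ m1 ≡ 2 ^ (if s ≤ 2 ^ m1 % k then 2 ^ m1 % k else 2 ^ m1 % k + k * s) [MOD n] := by
    apply pow_modEq_of_modEq hn (h10.trans Nat.lt_two_pow_self.le)
    · split_ifs with hc
      · exact hc
      · have : s ≤ k * s := Nat.le_mul_of_pos_left _ (by omega)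
        omega
    · split_ifs with hc
      · exact (Nat.mod_modEq _ _).symm
      · refine (Nat.mod_modEq _ _).symm.trans ?_
        show 2 ^ m1 % k % k = (2 ^ m1 % k + k * s) % k
        rw [Nat.add_mul_mod_self_left]
  have hy : 2 ^ 2 ^ 2 ^ m1 ≡ 2 ^ (2 ^ (if s ≤ 2 ^ m1 % k then 2 ^ m1 % k else 2 ^ m1 % k + k * s) % n)
      [MOD p] := hp' _ _ (he.trans (Nat.mod_modEq _ _).symm)
  have hfin := (hx.add_right 1).mul hy
  refine hfin.trans ?_
  show _ % p = 1 % p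
  rw [h15, hp1]

/-- Bits of a residue class. -/
def hor (per r : ℕ) : ℕ → ℕ
  | 0 => 0
  | q + 1 => 2 ^ per * hor per r q + 2 ^ r

theorem hor_bit {per r : ℕ} (hr : r < per) (q i : ℕ) (h : (hor per r q).testBit i = true) :
    i % per = r := by
  induction q generalizing i with
  | zero => simp [hor] at h
  | succ q ih =>
    rw [hor, Nat.testBit_two_pow_mul_add _ (Nat.pow_lt_pow_right (by norm_num) hr)] at h
    split_ifs at h with hlt
    · rw [Nat.testBit_two_pow] at h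
      have h' : r = i := by simpa using h
      rw [← h', Nat.mod_eq_of_lt hr]
    · have h2 := ih _ h
      rw [← Nat.mod_eq_sub_mod (by omega)] at h2
      exact h2

theorem hor_mul (per r q : ℕ) : hor per r q * (2 ^ per - 1) = 2 ^ r * (2 ^ (per * q) - 1) := by
  induction q with
  | zero => simp [hor]
  | succ q ih =>
    have h1 : 1 ≤ 2 ^ per := Nat.one_le_two_pow
    have h2 : 1 ≤ 2 ^ (per * q) := Nat.one_le_two_pow
    have h3 : 1 ≤ 2 ^ (per * (q + 1)) := Nat.one_le_two_pow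
    rw [hor, add_mul, mul_assoc, ih]
    zify [h1, h2, h3]
    ring

def mask (per r : ℕ) : ℕ := 2 ^ r * (2 ^ 720720 - 1) / (2 ^ per - 1)

theorem mask_bit {per r i : ℕ} (hper : 1 ≤ per) (hd : per ∣ 720720) (hr : r < per)
    (h : (mask per r).testBit i = true) : i % per = r := by
  obtain ⟨q, hq⟩ := hd
  have h1 : mask per r = hor per r q := by
    unfold mask
    rw [hq, ← hor_mul]
    apply Nat.mul_div_cancel
    have : 2 ^ 1 ≤ 2 ^ per := Nat.pow_le_pow_right (by norm_num) hper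
    omega
  rw [h1] at h
  exact hor_bit hr q i h

/-- The union of the classes of the certificates. -/
def union : List (ℕ × ℕ × ℕ × ℕ × ℕ × ℕ × ℕ) → ℕ
  | [] => 0
  | d :: l => mask d.2.2.2.2.2.1 (d.2.2.2.2.2.2 % d.2.2.2.2.2.1) ||| union l

theorem union_bit (l : List (ℕ × ℕ × ℕ × ℕ × ℕ × ℕ × ℕ)) (hl : ∀ d ∈ l, chk d = true) (i : ℕ)
    (h : (union l).testBit i = true) :
    ∃ d ∈ l, i % d.2.2.2.2.2.1 = d.2.2.2.2.2.2 % d.2.2.2.2.2.1 := by
  induction l with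
  | nil => simp [union] at h
  | cons d l ih =>
    rw [union, Nat.testBit_or, Bool.or_eq_true] at h
    rcases h with h | h
    · refine ⟨d, by simp, ?_⟩
      obtain ⟨-, -, h3, -, -, h6, -⟩ := H_of_chk (hl d (by simp))
      exact mask_bit h3 h6 (Nat.mod_lt _ (by omega)) h
    · obtain ⟨d', hd', h'⟩ := ih (fun d hd => hl d (by simp [hd])) h
      exact ⟨d', by simp [hd'], h'⟩

/-- Popcount by halving. -/
def pc : ℕ → ℕ → ℕ
  | 0, x => (tab >>> (4 * (x % 256))) % 16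
  | d + 1, x => pc d (x % 2 ^ (8 * 2 ^ d)) + pc d (x / 2 ^ (8 * 2 ^ d))

theorem pc_base : ∀ x < 256, (tab >>> (4 * (x % 256))) % 16
    = ((range 8).filter (fun i => x.testBit i = true)).card := by
  decide +kernel

theorem pc_eq (d : ℕ) : ∀ x : ℕ, x < 2 ^ (8 * 2 ^ d) →
    pc d x = ((range (8 * 2 ^ d)).filter (fun i => x.testBit i = true)).card := by
  induction d with
  | zero =>
    intro x hx
    exact pc_base x (by simpa using hx)
  | succ d ih =>
    intro x hx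
    set w := 8 * 2 ^ d with hw
    have hw2 : 8 * 2 ^ (d + 1) = w + w := by rw [hw, pow_succ]; ring
    rw [hw2] at hx ⊢
    have hpos : 0 < 2 ^ w := by positivity
    rw [pc, ← hw, ih _ (Nat.mod_lt _ hpos), ih _ (by
      rw [Nat.div_lt_iff_lt_mul hpos, ← pow_add]; exact hx)]
    have hsplit : range (w + w) = range w ∪ (range w).image (fun j => w + j) := by
      ext i
      simp only [mem_range, mem_union, mem_image]
      constructor
      · intro hi
        by_cases h : i < w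
        · exact Or.inl h
        · exact Or.inr ⟨i - w, by omega, by omega⟩
      · rintro (h | ⟨j, hj, rfl⟩) <;> omega
    rw [hsplit, filter_union, card_union_of_disjoint]
    · congr 1
      · congr 1
        apply filter_congr
        intro i hi
        rw [mem_range] at hi
        rw [Nat.testBit_mod_two_pow]
        simp [hi]
      · rw [filter_image, card_image_of_injective _ (fun a b h => by
          have h' : w + a = w + b := h
          omega)]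
        congr 1
        apply filter_congr
        intro i _
        rw [Nat.testBit_div_two_pow, add_comm]
    · rw [disjoint_left]
      intro i hi hi2
      simp only [mem_filter, mem_range, mem_image] at hi hi2
      obtain ⟨⟨j, _, hj⟩, _⟩ := hi2
      omega

end Pool.Agent.Work.MP_5cb6f7_nt
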