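import Pool.Agent.Work.MP_5cb6f7_nt.Eval
import Pool.Agent.Work.MP_5cb6f7_nt.Count

namespace Pool.Agent.Work.MP_5cb6f7_nt

open Finset

theorem H_big {m : ℕ} (hm : 5 ≤ m) : 4000001 ≤ H m := by
  have h1 : 2 ^ 5 ≤ 2 ^ m := Nat.pow_le_pow_right (by norm_num) hm
  have h2 : 2 ^ 22 ≤ 2 ^ 2 ^ m := Nat.pow_le_pow_right (by norm_num) (by omega)
  have h3 : 2 ^ 22 ≤ 2 ^ 2 ^ 2 ^ m := Nat.pow_le_pow_right (by norm_num) (by
    have : 22 ≤ 2 ^ 22 := by norm_num
    omega)
  have h4 : 1 * 2 ^ 2 ^ 2 ^ m ≤ H m := Nat.mul_le_mul_right _ (by omega)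
  have h5 : (4000001 : ℕ) ≤ 2 ^ 22 := by norm_num
  omega

theorem good_of_class {m : ℕ} (hm : 800000 ≤ m)
    (h : ∃ d ∈ data, m % d.2.2.2.2.2.1 = d.2.2.2.2.2.2 % d.2.2.2.2.2.1) :
    ∃ q, q.Prime ∧ q < 4000000 ∧ q ∣ H m - 1 ∧ q < H m - 1 := by
  obtain ⟨d, hd, hmod⟩ := h
  have hc := List.all_eq_true.mp chk_all d hd
  obtain ⟨h1, h2, -, h4, h5, -, h7⟩ := H_of_chk hc
  have h8 := h7 m (by omega) hmod
  have hb := H_big (show 5 ≤ m by omega)
  have h9 : d.1 ∣ H m - 1 := (Nat.modEq_iff_dvd' (by omega)).mp h8.symm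
  obtain ⟨q, hq, hqd⟩ := Nat.exists_prime_and_dvd (show d.1 ≠ 1 by omega)
  have hle := Nat.le_of_dvd (by omega) hqd
  exact ⟨q, hq, by omega, hqd.trans h9, by omega⟩

/-- The covered residues modulo `720720`. -/
@[irreducible] def S : Finset ℕ := (range 720720).filter (fun i => (union data).testBit i = true)

theorem union_data_bit {i : ℕ} (h : (union data).testBit i = true) :
    ∃ d ∈ data, i % d.2.2.2.2.2.1 = d.2.2.2.2.2.2 % d.2.2.2.2.2.1 :=
  union_bit data (fun d hd => List.all_eq_true.mp chk_all d hd) i h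

theorem mask_lt_aux (M per r : ℕ) (hM : 1 ≤ M) (hper : 1 ≤ per) (hr : r < per) :
    2 ^ r * (M - 1) / (2 ^ per - 1) < M := by
  have h0 : 2 ^ 1 ≤ 2 ^ per := Nat.pow_le_pow_right (by norm_num) hper
  rw [Nat.div_lt_iff_lt_mul (by omega)]
  have h1 : 2 * 2 ^ r ≤ 2 ^ per := by
    rw [← pow_succ']; exact Nat.pow_le_pow_right (by norm_num) hr
  have h2 : 1 ≤ 2 ^ r := Nat.one_le_two_pow
  have h4 : 2 ^ r ≤ 2 ^ per - 1 := by omega
  calc 2 ^ r * (M - 1) < 2 ^ r * M := by
        apply Nat.mul_lt_mul_of_pos_left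
        · omega
        · omega
    _ ≤ (2 ^ per - 1) * M := Nat.mul_le_mul_right _ h4
    _ = M * (2 ^ per - 1) := mul_comm _ _

theorem mask_lt (per r : ℕ) (hper : 1 ≤ per) (hr : r < per) :
    mask per r < 2 ^ 720720 :=
  mask_lt_aux _ per r Nat.one_le_two_pow hper hr

theorem union_lt_two_pow (l : List (ℕ × ℕ × ℕ × ℕ × ℕ × ℕ × ℕ)) (hl : ∀ d ∈ l, chk d = true) :
    union l < 2 ^ 720720 := by
  induction l with
  | nil => rw [union]; positivity
  | cons d l ih =>
    rw [union]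
    obtain ⟨-, -, h3, -, -, -, -⟩ := H_of_chk (hl d (by simp))
    exact Nat.or_lt_two_pow (mask_lt _ _ h3 (Nat.mod_lt _ (by omega)))
      (ih (fun d hd => hl d (by simp [hd])))

theorem card_aux (U L W c : ℕ) (h2 : ((range W).filter (fun i => U.testBit i = true)).card = c)
    (h3 : U < 2 ^ L) (hL : L ≤ W) :
    ((range L).filter (fun i => U.testBit i = true)).card = c := by
  have he : (range L).filter (fun i => U.testBit i = true)
      = (range W).filter (fun i => U.testBit i = true) := by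
    ext i
    rw [mem_filter, mem_filter, mem_range, mem_range]
    constructor
    · rintro ⟨h4, h5⟩
      exact ⟨lt_of_lt_of_le h4 hL, h5⟩
    · rintro ⟨_, h5⟩
      refine ⟨?_, h5⟩
      by_contra hge
      push Not at hge
      have h6 : U.testBit i = false :=
        Nat.testBit_lt_two_pow (lt_of_lt_of_le h3 (Nat.pow_le_pow_right (by norm_num) hge))
      rw [h6] at h5
      exact Bool.false_ne_true h5
  rw [he, h2]

theorem card_S : S.card = 362848 := by
  unfold S
  exact card_aux (union data) 720720 (8 * 2 ^ 17) 362848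
    ((pc_eq 17 _ union_lt).symm.trans count_union)
    (union_lt_two_pow data (fun d hd => List.all_eq_true.mp chk_all d hd)) (by norm_num)

open scoped Classical in
theorem gen (R : Finset ℕ) (L K N : ℕ) (P : ℕ → Prop) (hS : ∀ i ∈ R, i < L)
    (hP : ∀ i ∈ R, ∀ j, K ≤ i + L * j → P (i + L * j)) :
    R.card * (N / L) ≤ ((range N).filter P).card + K := by
  set Q := N / L with hQ
  have hQN : L * Q ≤ N := Nat.mul_div_le N L
  set T : Finset ℕ := (R ×ˢ range Q).image (fun x => x.1 + L * x.2) with hT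
  have hTc : T.card = R.card * Q := by
    rw [hT, card_image_of_injOn, card_product, card_range]
    intro a ha b hb hab
    have ha' := Finset.mem_coe.mp ha
    have hb' := Finset.mem_coe.mp hb
    rw [mem_product] at ha' hb'
    have ha1 : a.1 < L := hS _ ha'.1
    have hb1 : b.1 < L := hS _ hb'.1
    have hab' : a.1 + L * a.2 = b.1 + L * b.2 := hab
    have h1 : a.1 = b.1 := by
      have e1 : (a.1 + L * a.2) % L = a.1 := by
        rw [Nat.add_mul_mod_self_left, Nat.mod_eq_of_lt ha1]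
      have e2 : (b.1 + L * b.2) % L = b.1 := by
        rw [Nat.add_mul_mod_self_left, Nat.mod_eq_of_lt hb1]
      rw [← e1, ← e2, hab']
    have h2 : L * a.2 = L * b.2 := by omega
    have h3 : a.2 = b.2 := Nat.eq_of_mul_eq_mul_left (by omega) h2
    exact Prod.ext h1 h3
  have hsub : T ⊆ (range N).filter P ∪ range K := by
    intro m hm
    rw [hT, mem_image] at hm
    obtain ⟨x, hx, rfl⟩ := hm
    rw [mem_product, mem_range] at hx
    obtain ⟨hx1, hx2⟩ := hx
    rw [mem_union, mem_range, mem_filter, mem_range]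
    by_cases hlt : x.1 + L * x.2 < K
    · exact Or.inr hlt
    · left
      refine ⟨?_, hP _ hx1 _ (by omega)⟩
      have h1 : x.2 + 1 ≤ Q := hx2
      have h2 : L * (x.2 + 1) ≤ L * Q := Nat.mul_le_mul_left _ h1
      have h3 := hS _ hx1
      rw [mul_add, mul_one] at h2
      omega
  calc R.card * Q = T.card := hTc.symm
    _ ≤ _ := card_le_card hsub
    _ ≤ _ := card_union_le _ _
    _ = _ := by rw [card_range]

theorem mem_S {i : ℕ} (h : i ∈ S) : i < 720720 ∧ (union data).testBit i = true := by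
  unfold S at h
  exact ⟨mem_range.mp (mem_filter.mp h).1, (mem_filter.mp h).2⟩

open scoped Classical in
theorem main (N : ℕ) : 362848 * (N / 720720) ≤
    ((range N).filter (fun m => ∃ q, q.Prime ∧ q < 4000000 ∧ q ∣ H m - 1 ∧ q < H m - 1)).card
      + 800000 := by
  have h := gen S 720720 800000 N
    (fun m => ∃ q, q.Prime ∧ q < 4000000 ∧ q ∣ H m - 1 ∧ q < H m - 1)
    (fun i hi => (mem_S hi).1) (fun i hi j hj => by
      apply good_of_class hj
      obtain ⟨d, hd, hmod⟩ := union_data_bit (mem_S hi).2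
      refine ⟨d, hd, ?_⟩
      obtain ⟨-, -, -, -, -, ⟨c, hc⟩, -⟩ := H_of_chk (List.all_eq_true.mp chk_all d hd)
      rw [← hmod, hc, mul_assoc, Nat.add_mul_mod_self_left])
  rw [card_S] at h
  exact h

end Pool.Agent.Work.MP_5cb6f7_nt
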