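import Pool.Agent.Work.MP_5cb6f7_nt.Core

namespace Pool.Agent.Work.MP_5cb6f7_nt

theorem chk_all : data.all chk = true := by
  decide +kernel

end Pool.Agent.Work.MP_5cb6f7_nt
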